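import Pool.Agent.R437.Met.Hs

/-! All tuples of points near a given point, for all number fields and all constants of a countable set together. -/

set_option autoImplicit false

open NumberField
open scoped ENNReal

namespace Pool.Agent.W5h28.NE

open Pool.Agent.R437.Met

/-- number fields in `ℂ` are countably many -/
theorem countable_fields : Set.Countable {K : IntermediateField ℚ ℂ | NumberField K} := by
  refine ((Algebraic.countable ℚ ℂ).image fun α : ℂ => IntermediateField.adjoin ℚ {α}).mono ?_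
  intro K hK
  have : NumberField K := hK
  have : FiniteDimensional ℚ K := inferInstance
  obtain ⟨α, hα⟩ := @Field.exists_primitive_element ℚ K _ _ K.algebra' (by convert this) (by infer_instance)
  refine ⟨(α : ℂ), ?_, ?_⟩
  · have h1 : IsAlgebraic ℚ α := Algebra.IsAlgebraic.isAlgebraic α
    exact h1.algebraMap
  · show IntermediateField.adjoin ℚ {(α : ℂ)} = K
    rw [← IntermediateField.lift_adjoin_simple, hα, IntermediateField.lift_top]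

/-- `x` is, up to a small error, a zero of a polynomial of degree at most `d` -/
def Rel {n : ℕ} {J : Fin n → Type} (v : ∀ j, ℂ → J j → ℂ) (F : Type) [Field F] [NumberField F] (ι : F →+* ℂ)
    (d : ℕ) {g : ℕ} (c : Fin g → ℂ) (A B T : ℝ) (x : Fin n → F) : Prop :=
  ∃ P : MvPolynomial (Σ j, J j) ℂ, (∀ y, P.degreeOf y ≤ d) ∧
    (∀ s, ∃ a : Fin g → 𝓞 F, (∀ i (φ : F →+* ℂ), ‖φ (a i)‖ ≤ T ^ A) ∧ P.coeff s = ∑ i, c i * ι (a i)) ∧
    ∃ s₀, P.coeff s₀ ≠ 0 ∧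
      ‖MvPolynomial.aeval (fun y : Σ j, J j => v y.1 (ι (x y.1)) y.2) P‖ ≤ T ^ (-B) * ‖P.coeff s₀‖

section
variable {n : ℕ} {J : Fin n → Type} {v : ∀ j, ℂ → J j → ℂ} {F : Type} [Field F] [NumberField F] {ι : F →+* ℂ}
  {d : ℕ} {g : ℕ} {c : Fin g → ℂ} {A A' B B' T T' : ℝ} {x : Fin n → F}

theorem Rel.monoA (h : Rel v F ι d c A B T x) (hA : A ≤ A') (hT : 1 ≤ T) : Rel v F ι d c A' B T x := by
  obtain ⟨P, h1, h2, h3⟩ := h
  refine ⟨P, h1, fun s => ?_, h3⟩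
  obtain ⟨a, ha, ha'⟩ := h2 s
  exact ⟨a, fun i φ => (ha i φ).trans (Fam.pow_mono hA hT), ha'⟩

theorem Rel.monoB (h : Rel v F ι d c A B T x) (hB : B' ≤ B) (hT : 1 ≤ T) : Rel v F ι d c A B' T x := by
  obtain ⟨P, h1, h2, s₀, h3, h4⟩ := h
  exact ⟨P, h1, h2, s₀, h3, h4.trans (mul_le_mul_of_nonneg_right (Fam.pow_mono (by linarith) hT) (norm_nonneg _))⟩

theorem Rel.dyadic (h : Rel v F ι d c A (B + 1) T x) (hA : 0 ≤ A) (hB : 0 ≤ B) (h2B : (2 : ℝ) ^ B ≤ T) (hT : 1 ≤ T)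
    (hTT : T ≤ T') (hT2 : T' ≤ 2 * T) : Rel v F ι d c A B T' x := by
  obtain ⟨P, h1, h2, s₀, h3, h4⟩ := h
  refine ⟨P, h1, fun s => ?_, s₀, h3, h4.trans (mul_le_mul_of_nonneg_right
    (Fam.pow_dyadic hB hT hTT hT2 h2B) (norm_nonneg _))⟩
  obtain ⟨a, ha, ha'⟩ := h2 s
  exact ⟨a, fun i φ => (ha i φ).trans (Real.rpow_le_rpow (by linarith) hTT hA), ha'⟩

end

/-- all tuples near `z` are good -/
def Near {n : ℕ} {J : Fin n → Type} (v : ∀ j, ℂ → J j → ℂ) (k : Set ℂ) (lam : ℝ) (z : Fin n → ℂ) : Prop :=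
  ∀ (F : IntermediateField ℚ ℂ) [NumberField F] (d g : ℕ) (c : Fin g → ℂ), (∀ i, c i ∈ k) → ∀ A : ℝ, ∃ B : ℝ,
    ∀ C : ℝ, ∃ T₀ : ℝ, ∀ T : ℝ, T₀ ≤ T → ∀ x : Fin n → F,
      (∀ j, Hs.IsPt F T (x j) ∧ ‖z j - (x j : ℂ)‖ ≤ C * T ^ (-(lam * Module.finrank ℚ F))) →
        ¬ Rel v F (algebraMap F ℂ) d c A B T x

theorem Near.mono {n : ℕ} {J : Fin n → Type} {v : ∀ j, ℂ → J j → ℂ} {k : Set ℂ} {lam lam' : ℝ}
    {z : Fin n → ℂ} (h : Near v k lam z) (hl : lam ≤ lam') : Near v k lam' z := by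
  intro F _ d g c hc A
  obtain ⟨B, hB⟩ := h F d g c hc A
  refine ⟨B, fun C => ?_⟩
  obtain ⟨T₀, hT₀⟩ := hB |C|
  refine ⟨max T₀ 1, fun T hT x hx => hT₀ T ((le_max_left _ _).trans hT) x fun j => ⟨(hx j).1, ?_⟩⟩
  have hT1 : 1 ≤ T := (le_max_right _ _).trans hT
  calc ‖z j - (x j : ℂ)‖ ≤ C * T ^ (-(lam' * Module.finrank ℚ F)) := (hx j).2
    _ ≤ |C| * T ^ (-(lam' * Module.finrank ℚ F)) :=
        mul_le_mul_of_nonneg_right (le_abs_self C) (Real.rpow_nonneg (by linarith) _)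
    _ ≤ |C| * T ^ (-(lam * Module.finrank ℚ F)) := by
        apply mul_le_mul_of_nonneg_left _ (abs_nonneg C)
        apply Real.rpow_le_rpow_of_exponent_le hT1
        have : lam * (Module.finrank ℚ F : ℝ) ≤ lam' * Module.finrank ℚ F :=
          mul_le_mul_of_nonneg_right hl (Nat.cast_nonneg _)
        linarith

/-- the counting statement -/
def Count {n : ℕ} {J : Fin n → Type} (v : ∀ j, ℂ → J j → ℂ) (U : Fin n → Set ℂ) : Prop :=
  ∀ K : Fin n → Set ℂ, (∀ j, IsCompact (K j)) → (∀ j, K j ⊆ U j) → ∀ (m g d : ℕ) (A ε : ℝ), 0 < ε →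
    ∃ B C T₀ : ℝ, ∀ (F : Type) [Field F] [NumberField F], Module.finrank ℚ F ≤ m → ∀ (ι : F →+* ℂ)
      (c : Fin g → ℂ) (T : ℝ), T₀ ≤ T →
      {x : Fin n → F | (∀ j, ι (x j) ∈ K j ∧ Hs.IsPt F T (x j)) ∧ Rel v F ι d c A B T x}.Finite ∧
      (({x : Fin n → F | (∀ j, ι (x j) ∈ K j ∧ Hs.IsPt F T (x j)) ∧ Rel v F ι d c A B T x}.ncard : ℕ) : ℝ) ≤
        C * T ^ ε * ({x : F | ι x ∈ ⋃ j, K j ∧ Hs.IsPt F T x}.ncard : ℝ) ^ (n - 1)

theorem near_main {n : ℕ} (hn : 1 ≤ n) {J : Fin n → Type} (v : ∀ j, ℂ → J j → ℂ) (U : Fin n → Set ℂ)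
    (hU : ∀ j, IsOpen (U j)) (hc : Count v U) (k : Set ℂ) (hk : k.Countable) (lam : ℝ) (hl : 0 < lam) :
    ∃ E : Set (Fin n → ℂ), dimH E ≤ ENNReal.ofReal (2 * ((n : ℝ) - 1) / lam) ∧
      ∀ z : Fin n → ℂ, (∀ j, z j ∈ U j) → z ∉ E → Near v k lam z := by
  classical
  have hkc : Countable k := hk.to_subtype
  have hone : ∀ (F : IntermediateField ℚ ℂ) (_ : NumberField F), ∃ E : Set (Fin n → ℂ),
      dimH E ≤ ENNReal.ofReal (2 * (Module.finrank ℚ F : ℝ) * ((n : ℝ) - 1) / (lam * Module.finrank ℚ F)) ∧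
      ∀ ξ : Fin n → ℂ, (∀ j, ξ j ∈ U j) → ξ ∉ E → ∀ (q : (Σ g : ℕ, Fin g → k) × ℕ) (A : ℝ), ∃ B : ℝ, ∀ C : ℝ,
        ∃ T₁ : ℝ, ∀ T : ℝ, T₁ ≤ T → ∀ x : Fin n → F,
          (∀ j, Hs.IsPt F T (x j) ∧ ‖ξ j - (algebraMap F ℂ) (x j)‖ ≤ C * T ^ (-(lam * Module.finrank ℚ F))) →
            ¬ Rel v F (algebraMap F ℂ) q.2 (fun i => (q.1.2 i : ℂ)) A B T x := by
    intro F hF
    have hm : (0 : ℝ) < Module.finrank ℚ F := by exact_mod_cast Module.finrank_pos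
    refine Hs.tuple F (algebraMap F ℂ) n hn U hU
      (fun (q : (Σ g : ℕ, Fin g → k) × ℕ) A B T x =>
        Rel v F (algebraMap F ℂ) q.2 (fun i => (q.1.2 i : ℂ)) A B T x) ?_ ?_ ?_ ?_ (lam * Module.finrank ℚ F)
        (mul_pos hl hm)
    · intro q A A' B T x hA hT h
      exact h.monoA hA hT
    · intro q A B B' T x hB hT h
      exact h.monoB hB hT
    · intro q A B T T' x hA hB h2B hT hTT hT2 h
      exact h.dyadic hA hB h2B hT hTT hT2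
    · intro K hK hKS q A ε hε
      obtain ⟨B, C, T₀, h⟩ := hc K hK hKS (Module.finrank ℚ F) q.1.1 q.2 A ε hε
      exact ⟨B, C, T₀, ⋃ j, K j, fun T hT => h F le_rfl (algebraMap F ℂ) (fun i => (q.1.2 i : ℂ)) T hT⟩
  choose E hE1 hE2 using hone
  set I : Set (IntermediateField ℚ ℂ) := {K | NumberField K} with hI
  refine ⟨⋃ F ∈ I, ⋃ h : NumberField F, E F h, ?_, ?_⟩
  · rw [dimH_bUnion countable_fields]
    refine iSup₂_le fun F hF => ?_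
    rw [dimH_iUnion]
    refine iSup_le fun h => (hE1 F h).trans (ENNReal.ofReal_le_ofReal (le_of_eq ?_))
    have hm : (0 : ℝ) < Module.finrank ℚ F := by exact_mod_cast Module.finrank_pos
    field_simp
  · intro z hz hzE F hF d g c hcc A
    have hzF : z ∉ E F hF := fun h => hzE (Set.mem_iUnion₂.2 ⟨F, hF, Set.mem_iUnion.2 ⟨hF, h⟩⟩)
    exact hE2 F hF z hz hzF (⟨g, fun i => ⟨c i, hcc i⟩⟩, d) A

/-- for one point: one exceptional set of dimension zero -/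
theorem near_one {n : ℕ} (hn : n = 1) {J : Fin n → Type} (v : ∀ j, ℂ → J j → ℂ) (U : Fin n → Set ℂ)
    (hU : ∀ j, IsOpen (U j)) (hc : Count v U) (k : Set ℂ) (hk : k.Countable) :
    ∃ E : Set (Fin n → ℂ), dimH E = 0 ∧
      ∀ z : Fin n → ℂ, (∀ j, z j ∈ U j) → z ∉ E → ∀ lam : ℝ, 0 < lam → Near v k lam z := by
  have h : ∀ q : ℕ, ∃ E : Set (Fin n → ℂ), dimH E = 0 ∧
      ∀ z : Fin n → ℂ, (∀ j, z j ∈ U j) → z ∉ E → Near v k (1 / ((q : ℝ) + 1)) z := by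
    intro q
    obtain ⟨E, h1, h2⟩ := near_main hn.ge v U hU hc k hk (1 / ((q : ℝ) + 1)) (by positivity)
    refine ⟨E, ?_, h2⟩
    have h3 : (n : ℝ) - 1 = 0 := by rw [hn]; norm_num
    rw [h3, mul_zero, zero_div, ENNReal.ofReal_zero] at h1
    exact le_antisymm h1 zero_le
  choose E hE1 hE2 using h
  refine ⟨⋃ q, E q, ?_, ?_⟩
  · rw [dimH_iUnion]
    simp [hE1]
  · intro z hz hzE lam hl
    obtain ⟨l, hl'⟩ := exists_nat_gt (1 / lam)
    have hl1 : 1 / ((l : ℝ) + 1) ≤ lam := by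
      rw [div_le_iff₀ (by positivity)]
      rw [div_lt_iff₀ hl] at hl'
      nlinarith
    exact (hE2 l z hz fun h => hzE (Set.mem_iUnion.2 ⟨l, h⟩)).mono hl1

end Pool.Agent.W5h28.NE
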